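import Pool.Agent.H381R4.CM.Stubs

/-!
# Product densities are completely mixable (helper804, for the project of helper381)
-/

set_option autoImplicit false
open MeasureTheory Matrix Filter Topology
open scoped ENNReal BigOperators Pointwise

namespace Pool.Agent.H381CM

lemma PCM_exp_mem {t : ℝ} (ht : 0 ≤ t) : 0 ≤ Real.exp (-t) ∧ Real.exp (-t) ≤ 1 :=
  ⟨(Real.exp_pos _).le, Real.exp_le_one_iff.mpr (by linarith)⟩

lemma PCM_XX_nonneg {p : Polynomial ℝ} (hp : Adm p) {t : ℝ} (ht : 0 ≤ t) : 0 ≤ XX p t :=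
  (hp.2 _ (PCM_exp_mem ht).1 (PCM_exp_mem ht).2).1

lemma PCM_QQ_nonneg {p : Polynomial ℝ} (hp : Adm p) {t : ℝ} (ht : 0 ≤ t) : 0 ≤ QQ p t :=
  mul_nonneg (PCM_exp_mem ht).1 (hp.2 _ (PCM_exp_mem ht).1 (PCM_exp_mem ht).2).2

lemma PCM_tt_nonneg {d : ℕ} {ι : Type} (u : ι → V d) (x y z : V d) (k : ι) :
    0 ≤ tt u x y z k := by
  unfold tt; positivity

lemma PCM_GG_nonneg {d : ℕ} {ι : Type} [Fintype ι] (u : ι → V d) (p : ι → Polynomial ℝ)
    (hp : ∀ k, Adm (p k)) (x y z : V d) : 0 ≤ GG u p x y z := by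
  unfold GG
  refine mul_nonneg (by positivity) (Finset.sum_nonneg fun f _ => ?_)
  refine mul_nonneg (sq_nonneg _) (Finset.prod_nonneg fun k _ => ?_)
  split_ifs
  · exact PCM_QQ_nonneg (hp k) (PCM_tt_nonneg u x y z k)
  · exact PCM_XX_nonneg (hp k) (PCM_tt_nonneg u x y z k)

lemma PCM_cont_dot {d : ℕ} (v : V d) {α : Type*} [TopologicalSpace α] {f : α → V d}
    (hf : Continuous f) : Continuous (fun a => v ⬝ᵥ f a) := by
  unfold dotProduct
  fun_prop

lemma PCM_cont_XX (p : Polynomial ℝ) : Continuous (XX p) := by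
  unfold XX
  exact p.continuous.comp (by fun_prop)

lemma PCM_cont_QQ (p : Polynomial ℝ) : Continuous (QQ p) := by
  unfold QQ
  exact Continuous.mul (by fun_prop) (p.derivative.continuous.comp (by fun_prop))

lemma PCM_cont_tt {d : ℕ} {ι : Type} (u : ι → V d) (k : ι) :
    Continuous (fun q : V d × V d × V d => tt u q.1 q.2.1 q.2.2 k) := by
  unfold tt
  have h1 := PCM_cont_dot (u k) (f := fun q : V d × V d × V d => q.1) (by fun_prop)
  have h2 := PCM_cont_dot (u k) (f := fun q : V d × V d × V d => q.2.1) (by fun_prop)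
  have h3 := PCM_cont_dot (u k) (f := fun q : V d × V d × V d => q.2.2) (by fun_prop)
  exact ((h1.pow 2).add (h2.pow 2)).add (h3.pow 2)

lemma PCM_cont_GG {d : ℕ} {ι : Type} [Fintype ι] (u : ι → V d) (p : ι → Polynomial ℝ) :
    Continuous (fun q : V d × V d × V d => GG u p q.1 q.2.1 q.2.2) := by
  unfold GG
  refine continuous_const.mul (continuous_finsetSum _ fun f _ => ?_)
  refine continuous_const.mul (continuous_finsetProd _ fun k _ => ?_)
  split_ifs
  · exact (PCM_cont_QQ _).comp (PCM_cont_tt u k)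
  · exact (PCM_cont_XX _).comp (PCM_cont_tt u k)

lemma PCM_tt_rot {d : ℕ} {ι : Type} (u : ι → V d) (θ : ℝ) (x y z : V d) (k : ι) :
    tt u (Real.cos θ • x + Real.sin θ • y) (-(Real.sin θ) • x + Real.cos θ • y) z k
      = tt u x y z k := by
  unfold tt
  simp only [dotProduct_add, dotProduct_smul, smul_eq_mul]
  have h := Real.sin_sq_add_cos_sq θ
  linear_combination ((u k ⬝ᵥ x) ^ 2 + (u k ⬝ᵥ y) ^ 2) * h

lemma PCM_GG_rot {d : ℕ} {ι : Type} [Fintype ι] (u : ι → V d) (p : ι → Polynomial ℝ) (θ : ℝ)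
    (x y z : V d) :
    GG u p (Real.cos θ • x + Real.sin θ • y) (-(Real.sin θ) • x + Real.cos θ • y) z
      = GG u p x y z := by
  unfold GG
  simp only [PCM_tt_rot]

theorem T_PCM : S_MAR → S_ROT → S_PCM := by
  intro hM hR d n hn ι _ u p hsp hp hint hZ
  set Z : ℝ := ∫ x, gg u p x with hZdef
  have hgg : ∀ x, 0 ≤ gg u p x := fun x => by
    unfold gg
    exact Finset.prod_nonneg fun k _ => PCM_XX_nonneg (hp k) (sq_nonneg _)
  refine hR d n hn (fun x y z => ENNReal.ofReal (GG u p x y z / Z)) ?_ ?_ _ ?_ ?_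
  · exact ((PCM_cont_GG u p).div_const Z).measurable.ennreal_ofReal
  · intro θ x y z
    simp only [PCM_GG_rot]
  · intro x
    obtain ⟨h1, h2⟩ := hM d ι u p hsp (fun k => (hp k).1) x
    rw [← ofReal_integral_eq_lintegral_ofReal (h1.div_const Z)
      (Eventually.of_forall fun q => div_nonneg (PCM_GG_nonneg u p hp _ _ _) hZ.le),
      integral_div, h2]
  · rw [← ofReal_integral_eq_lintegral_ofReal (hint.div_const Z)
      (Eventually.of_forall fun q => div_nonneg (hgg _) hZ.le),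
      integral_div, ← hZdef, div_self hZ.ne', ENNReal.ofReal_one]

end Pool.Agent.H381CM
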